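import Pool.Agent.Helper208_C1.Fin

/-! For every regularity `k` the interval `[0,1]` has no `C^k` detecting group. -/

open scoped Manifold

namespace Pool.Agent.Results.MP_c1d873_al.IntervalUndetected

universe u

/-- the group `G` acts faithfully by `C^k` diffeomorphisms on the manifold `N` (modelled on the half space, so
boundary is allowed); each `ρ g` and its inverse `ρ g⁻¹` are `C^k` -/
def ActsFaithfully (k : ℕ∞) (n : ℕ) [NeZero n] (G : Type u) [Group G] (N : Type) [TopologicalSpace N]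
    [ChartedSpace (EuclideanHalfSpace n) N] : Prop :=
  ∃ ρ : G →* Equiv.Perm N, Function.Injective ρ ∧ ∀ g : G, ContMDiff (𝓡∂ n) (𝓡∂ n) (k : WithTop ℕ∞) (ρ g)

/-- `G` is a `C^k` detecting group for the `n`-manifold `M`: for every compact connected smooth `n`-manifold `N`,
boundary allowed, `G` acts faithfully on `N` by `C^k` diffeomorphisms iff `N` is `C^k`-diffeomorphic to `M` -/
def IsDetecting (k : ℕ∞) (n : ℕ) [NeZero n] (G : Type u) [Group G] (M : Type) [TopologicalSpace M]
    [ChartedSpace (EuclideanHalfSpace n) M] : Prop :=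
  ∀ (N : Type) [TopologicalSpace N] [T2Space N] [CompactSpace N] [ConnectedSpace N]
    [ChartedSpace (EuclideanHalfSpace n) N] [IsManifold (𝓡∂ n) ((⊤ : ℕ∞) : WithTop ℕ∞) N],
    ActsFaithfully k n G N ↔ Nonempty (Diffeomorph (𝓡∂ n) (𝓡∂ n) M N (k : WithTop ℕ∞))

/-- For every `k ≥ 1` (or `∞`), no group at all, finitely generated, countable or not, is a `C^k` detecting group for
the compact interval `[0,1]`. -/
theorem result : ∀ (k : ℕ∞), 1 ≤ k → ∀ (G : Type u) [Group G], ¬ IsDetecting k 1 G (Set.Icc (0 : ℝ) 1) := by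
  intro k hk G _ h
  obtain ⟨ρ, hinj, hs⟩ := (h (Set.Icc (0 : ℝ) 1)).2 ⟨Diffeomorph.refl _ _ _⟩
  obtain ⟨D⟩ := (h (OnePoint ℝ)).1 (Pool.Agent.Helper208_C1.transfer k hk G ρ hinj hs)
  exact Pool.Agent.Helper208_C1.not_homeo D.toHomeomorph

end Pool.Agent.Results.MP_c1d873_al.IntervalUndetected
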